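import Pool.Agent.V5helper50.SP.Stm

set_option autoImplicit false

open Finset

namespace Pool.Agent.V5helper11.SP

open Pool.Agent.V5helper51.MT (a G)
open Pool.Agent.V5helper50.SP

theorem t_UPB (hUPC : S_UPC) (hGRW : S_GRW) : S_UPB := by
  intro k hk
  obtain ⟨C, hC, hU⟩ := hUPC k hk
  refine ⟨(2 * k + 1) * C, by positivity, ?_⟩
  intro q hq α σ hσ0 hσ1 hP hS ρ
  obtain ⟨⟨x₀, hx₀, hgr, -⟩, ⟨B, hB⟩, hfin, -⟩ := hGRW k q hk hq α
  have hgr1 : ∀ x : ℕ, x₀ ≤ x → (x : ℤ) ^ k ≤ 2 * a k q α x := by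
    intro x hx
    have h1 := (hgr x hx).1
    have h : ((x : ℝ)) ^ k ≤ 2 * (a k q α x : ℝ) := by linarith
    exact_mod_cast h
  have hgr2 : ∀ x : ℕ, x₀ ≤ x → a k q α x ≤ 2 * (x : ℤ) ^ k := by
    intro x hx
    have h1 := (hgr x hx).2
    exact_mod_cast h1
  have hm : ∀ i : Fin (2 * k + 1), ∃ m₀ : ℕ, ∀ m : ℕ, m₀ ≤ m → ∀ n : ℤ,
      ({x : Fin (2 * k + 1) → ℕ | (∀ j, x j % q = (ρ ∘ Equiv.swap i (Fin.last (2 * k))) j % q) ∧
        (∀ j, x j ≤ 4 * 2 ^ m) ∧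
        2 ^ m ≤ (4 * k + 2) * x (Fin.last (2 * k)) ∧ ∑ j, a k q α (x j) = n}.ncard : ℝ) ≤
      C / (q : ℝ) ^ (2 * k) * ((2 : ℝ) ^ m) ^ (k + 1) :=
    fun i => hU q hq α σ hσ0 hσ1 hP hS (ρ ∘ Equiv.swap i (Fin.last (2 * k)))
  choose m₀ hm₀ using hm
  set A₀ : ℕ := ∑ x ∈ range x₀, (a k q α x).natAbs with hA₀
  have hA₀' : ∀ x < x₀, a k q α x ≤ A₀ := by
    intro x hx
    have h1 : (a k q α x).natAbs ≤ A₀ :=
      Finset.single_le_sum (f := fun x => (a k q α x).natAbs) (fun _ _ => Nat.zero_le _)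
        (Finset.mem_range.2 hx)
    have h2 : a k q α x ≤ ((a k q α x).natAbs : ℤ) := Int.le_natAbs
    exact h2.trans (by exact_mod_cast h1)
  set M : ℕ := (∑ i, m₀ i) + x₀ + 2 * k * B + (2 * k + 1) * (A₀ + 1) with hM
  refine ⟨(2 ^ k) ^ M, fun n hn => ?_⟩
  have h2k : 1 < 2 ^ k := Nat.one_lt_two_pow (by omega)
  have hn0 : n ≠ 0 := by
    have : 0 < (2 ^ k) ^ M := by positivity
    omega
  obtain ⟨m, hmdef⟩ : ∃ m, m = Nat.log (2 ^ k) n := ⟨_, rfl⟩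
  have hMm : M ≤ m := by
    rw [hmdef]
    exact Nat.le_log_of_pow_le h2k hn
  have hlow : (2 ^ m) ^ k ≤ n := by
    have h := Nat.pow_log_le_self (2 ^ k) hn0
    rw [← hmdef] at h
    calc (2 ^ m) ^ k = (2 ^ k) ^ m := by rw [← pow_mul, ← pow_mul, mul_comm]
      _ ≤ n := h
  have hupp : n < (2 * 2 ^ m) ^ k := by
    have h := Nat.lt_pow_succ_log_self h2k n
    rw [← hmdef] at h
    calc n < (2 ^ k) ^ (m + 1) := h
      _ = (2 * 2 ^ m) ^ k := by rw [← pow_mul, mul_comm k, pow_mul, pow_succ, mul_comm (2 ^ m)]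
  obtain ⟨P, hPdef⟩ : ∃ P : ℕ, P = 2 ^ m := ⟨_, rfl⟩
  rw [← hPdef] at hlow hupp
  have hMP : M ≤ P := by
    rw [hPdef]
    exact hMm.trans (Nat.lt_two_pow_self).le
  have hPpow : P ≤ P ^ k := Nat.le_self_pow (by omega) P
  have hsum0 : 0 ≤ ∑ i, m₀ i := Nat.zero_le _
  -- the variables are at most 4 P
  have claim1 : ∀ x : Fin (2 * k + 1) → ℕ, ∑ i, a k q α (x i) = (n : ℤ) → ∀ i, x i ≤ 4 * P := by
    intro x hx i
    by_contra hcon
    have hgt : 4 * P < x i := not_le.1 hcon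
    have hxi : x₀ ≤ x i := by omega
    have h1 := hgr1 (x i) hxi
    have h2 : -((2 * k : ℕ) * (B : ℤ)) ≤ ∑ j ∈ univ.erase i, a k q α (x j) := by
      have h3 : (univ.erase i).card • (-(B : ℤ)) ≤ ∑ j ∈ univ.erase i, a k q α (x j) :=
        Finset.card_nsmul_le_sum _ _ _ (fun j _ => hB (x j))
      rw [Finset.card_erase_of_mem (mem_univ i), Finset.card_univ, Fintype.card_fin] at h3
      simp only [Nat.add_sub_cancel, nsmul_eq_mul] at h3
      linarith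
    have h4 : a k q α (x i) + ∑ j ∈ univ.erase i, a k q α (x j) = (n : ℤ) := by
      rw [← hx]
      exact Finset.add_sum_erase univ (fun j => a k q α (x j)) (mem_univ i)
    have h5 : ((x i : ℕ) : ℤ) ^ k ≤ 2 * (n : ℤ) + 2 * ((2 * k : ℕ) * (B : ℤ)) := by linarith
    have h6 : (x i) ^ k ≤ 2 * n + 2 * (2 * k * B) := by
      have : (((x i) ^ k : ℕ) : ℤ) ≤ ((2 * n + 2 * (2 * k * B) : ℕ) : ℤ) := by
        push_cast at h5 ⊢
        linarith
      exact_mod_cast this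
    have h7 : (4 * P) ^ k ≤ (x i) ^ k := Nat.pow_le_pow_left hgt.le k
    have h8 : 4 * (2 * P) ^ k ≤ (4 * P) ^ k := by
      have h9 : (4 * P) ^ k = 2 ^ k * (2 * P) ^ k := by
        rw [← mul_pow]
        congr 1
        ring
      rw [h9]
      apply Nat.mul_le_mul_right
      calc 4 = 2 ^ 2 := by norm_num
        _ ≤ 2 ^ k := Nat.pow_le_pow_right (by norm_num) hk
    have h10 : P ^ k ≤ (2 * P) ^ k := Nat.pow_le_pow_left (by omega) k
    have h11 : 2 * k * B < P := by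
      have : (2 * k + 1) * (A₀ + 1) ≥ 1 := Nat.one_le_iff_ne_zero.2 (by positivity)
      omega
    omega
  -- one of the variables is large
  have claim2 : ∀ x : Fin (2 * k + 1) → ℕ, ∑ i, a k q α (x i) = (n : ℤ) →
      ∃ i, P ≤ (4 * k + 2) * x i := by
    intro x hx
    obtain ⟨i, hi⟩ : ∃ i, (n : ℤ) ≤ (2 * k + 1 : ℕ) * a k q α (x i) := by
      by_contra hcon
      push Not at hcon
      have h1 : ∑ i, ((2 * k + 1 : ℕ) : ℤ) * a k q α (x i) < ∑ _i : Fin (2 * k + 1), (n : ℤ) :=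
        Finset.sum_lt_sum_of_nonempty ⟨Fin.last _, mem_univ _⟩ (fun i _ => hcon i)
      rw [← Finset.mul_sum, hx, Finset.sum_const, Finset.card_univ, Fintype.card_fin,
        nsmul_eq_mul] at h1
      exact lt_irrefl _ h1
    refine ⟨i, ?_⟩
    have hxi : x₀ ≤ x i := by
      by_contra hlt
      have h1 := hA₀' (x i) (not_le.1 hlt)
      have h2 : (n : ℤ) ≤ ((2 * k + 1 : ℕ) : ℤ) * A₀ :=
        hi.trans (mul_le_mul_of_nonneg_left h1 (by positivity))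
      have h3 : n ≤ (2 * k + 1) * A₀ := by exact_mod_cast h2
      have h4 : (2 * k + 1) * (A₀ + 1) = (2 * k + 1) * A₀ + (2 * k + 1) := by ring
      omega
    have h1 := hgr2 (x i) hxi
    have h2 : (n : ℤ) ≤ ((2 * k + 1 : ℕ) : ℤ) * (2 * ((x i : ℕ) : ℤ) ^ k) :=
      hi.trans (mul_le_mul_of_nonneg_left h1 (by positivity))
    have h3 : n ≤ (4 * k + 2) * (x i) ^ k := by
      have h4 : n ≤ (2 * k + 1) * (2 * (x i) ^ k) := by exact_mod_cast h2
      calc n ≤ (2 * k + 1) * (2 * (x i) ^ k) := h4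
        _ = (4 * k + 2) * (x i) ^ k := by ring
    by_contra hlt
    have h5 : ((4 * k + 2) * x i) ^ k < P ^ k := Nat.pow_lt_pow_left (not_le.1 hlt) (by omega)
    have h6 : (4 * k + 2) * (x i) ^ k ≤ ((4 * k + 2) * x i) ^ k := by
      rw [mul_pow]
      exact Nat.mul_le_mul_right _ (Nat.le_self_pow (by omega) _)
    omega
  -- the union
  set T : Fin (2 * k + 1) → Set (Fin (2 * k + 1) → ℕ) := fun i =>
    {x | (∀ j, x j % q = ρ j % q) ∧ (∀ j, x j ≤ 4 * 2 ^ m) ∧ 2 ^ m ≤ (4 * k + 2) * x i ∧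
      ∑ j, a k q α (x j) = (n : ℤ)} with hT
  have hTfin : ∀ i, (T i).Finite := fun i =>
    (hfin (2 * k + 1) ρ n).subset (fun x hx => ⟨hx.1, hx.2.2.2⟩)
  have hsub : {x : Fin (2 * k + 1) → ℕ | (∀ i, x i % q = ρ i % q) ∧ ∑ i, a k q α (x i) = (n : ℤ)} ⊆
      ⋃ i, T i := by
    intro x hx
    obtain ⟨i, hi⟩ := claim2 x hx.2
    refine Set.mem_iUnion.2 ⟨i, hx.1, ?_, ?_, hx.2⟩
    · intro j
      rw [← hPdef]
      exact claim1 x hx.2 j
    · rw [← hPdef]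
      exact hi
  have hTi : ∀ i, ((T i).ncard : ℝ) ≤ C / (q : ℝ) ^ (2 * k) * ((2 : ℝ) ^ m) ^ (k + 1) := by
    intro i
    have hmi : m₀ i ≤ m := by
      have h1 : m₀ i ≤ ∑ i, m₀ i :=
        Finset.single_le_sum (f := m₀) (fun _ _ => Nat.zero_le _) (mem_univ i)
      omega
    refine le_trans ?_ (hm₀ i m hmi n)
    have hinj : Function.Injective (fun x : Fin (2 * k + 1) → ℕ =>
        x ∘ Equiv.swap i (Fin.last (2 * k))) := by
      intro x y hxy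
      funext j
      have h := congrFun hxy (Equiv.swap i (Fin.last (2 * k)) j)
      simpa using h
    rw [← Set.ncard_image_of_injective (T i) hinj]
    have hfin2 : ({x : Fin (2 * k + 1) → ℕ |
        (∀ j, x j % q = (ρ ∘ Equiv.swap i (Fin.last (2 * k))) j % q) ∧
        (∀ j, x j ≤ 4 * 2 ^ m) ∧
        2 ^ m ≤ (4 * k + 2) * x (Fin.last (2 * k)) ∧ ∑ j, a k q α (x j) = (n : ℤ)}).Finite :=
      (hfin (2 * k + 1) (ρ ∘ Equiv.swap i (Fin.last (2 * k))) n).subset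
        (fun x hx => ⟨hx.1, hx.2.2.2⟩)
    have hle := Set.ncard_le_ncard (s := (fun x : Fin (2 * k + 1) → ℕ =>
        x ∘ Equiv.swap i (Fin.last (2 * k))) '' T i) ?_ hfin2
    · exact_mod_cast hle
    · rintro y ⟨x, hx, rfl⟩
      refine ⟨fun j => hx.1 _, fun j => hx.2.1 _, ?_, ?_⟩
      · show 2 ^ m ≤ (4 * k + 2) * x (Equiv.swap i (Fin.last (2 * k)) (Fin.last (2 * k)))
        rw [Equiv.swap_apply_right]
        exact hx.2.2.1
      · rw [← hx.2.2.2]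
        exact Equiv.sum_comp (Equiv.swap i (Fin.last (2 * k))) (fun j => a k q α (x j))
  have hcard : R k q (2 * k + 1) α ρ n ≤ ∑ i, (T i).ncard := by
    unfold R
    refine (Set.ncard_le_ncard hsub (Set.finite_iUnion hTfin)).trans ?_
    exact Set.ncard_iUnion_le_of_fintype T
  have hcardR : (R k q (2 * k + 1) α ρ n : ℝ) ≤
      (2 * k + 1) * (C / (q : ℝ) ^ (2 * k) * ((2 : ℝ) ^ m) ^ (k + 1)) := by
    have h1 : (R k q (2 * k + 1) α ρ n : ℝ) ≤ ∑ i, ((T i).ncard : ℝ) := by exact_mod_cast hcard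
    refine h1.trans ((Finset.sum_le_sum (fun i _ => hTi i)).trans (le_of_eq ?_))
    rw [Finset.sum_const, Finset.card_univ, Fintype.card_fin, nsmul_eq_mul]
    push_cast
    ring
  have hkpos : (0 : ℝ) < k := by
    have : 0 < k := by omega
    exact_mod_cast this
  have hpow : ((2 : ℝ) ^ m) ^ (k + 1) ≤ (n : ℝ) ^ (1 + 1 / (k : ℝ)) := by
    have h1 : (((2 : ℝ) ^ m) ^ k) ≤ (n : ℝ) := by
      rw [hPdef] at hlow
      exact_mod_cast hlow
    have h2 : ((2 : ℝ) ^ m) ^ (k + 1) = (((2 : ℝ) ^ m) ^ k) ^ (1 + 1 / (k : ℝ)) := by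
      rw [← Real.rpow_natCast ((2 : ℝ) ^ m) k, ← Real.rpow_mul (by positivity),
        ← Real.rpow_natCast ((2 : ℝ) ^ m) (k + 1)]
      congr 1
      push_cast
      field_simp
    rw [h2]
    exact Real.rpow_le_rpow (by positivity) h1 (by positivity)
  refine hcardR.trans ?_
  have hq0 : (0 : ℝ) < q := by
    have : 0 < q := by omega
    exact_mod_cast this
  calc (2 * (k : ℝ) + 1) * (C / (q : ℝ) ^ (2 * k) * ((2 : ℝ) ^ m) ^ (k + 1))
      ≤ (2 * (k : ℝ) + 1) * (C / (q : ℝ) ^ (2 * k) * (n : ℝ) ^ (1 + 1 / (k : ℝ))) := by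
        gcongr
    _ = (2 * (k : ℝ) + 1) * C / (q : ℝ) ^ (2 * k) * (n : ℝ) ^ (1 + 1 / (k : ℝ)) := by ring

end Pool.Agent.V5helper11.SP
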